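import Mathlib

set_option autoImplicit false

open Finset Filter Topology

/-!
# The variance of the number of coprime pairs in a random `M × M` block is `O(M²)`

The coprimality indicator is replaced by the indicator that no number `≤ y` divides both
coordinates, which is periodic with period `y!`.  Over a full period the variance is
`∑ μ(d) μ(e) ((g S_g)² - M⁴) / (d e)²`, where `g = gcd(d, e)` and `S_g` is the number of pairs in
`[1, M]²` congruent mod `g`; since `M² ≤ g S_g ≤ M² + g min(g, M)`, each term is at most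
`3 M² g² / (d e)²`, and these add up to at most `24 M²`.  Then `y → ∞`.
-/

namespace Pool.Agent.Results.MP_143e3a_nt.VarianceBound

/-- `Z_M(a, b)`: the number of coprime pairs in the `M × M` block of lattice points based at
`(a, b)`. -/
def Z (M a b : ℕ) : ℕ :=
  #{x ∈ Icc (a + 1) (a + M) ×ˢ Icc (b + 1) (b + M) | Nat.Coprime x.1 x.2}

/-- the number of `(a, b) ∈ {1, ..., n}²` with `Z_M(a, b) = r` -/
def count (M r n : ℕ) : ℕ := #{x ∈ Icc 1 n ×ˢ Icc 1 n | Z M x.1 x.2 = r}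

/-- `p` is the limit law of `Z_M`: `p r = p_M(r)` for all `r`. -/
def IsLimitLaw (M : ℕ) (p : ℕ → ℝ) : Prop :=
  ∀ r, Tendsto (fun n : ℕ => (count M r n : ℝ) / (n : ℝ) ^ 2) atTop (𝓝 (p r))

/-- the variance of the law `p` on `{0, 1, ..., K}` -/
noncomputable def variance (K : ℕ) (p : ℕ → ℝ) : ℝ :=
  ∑ r ∈ range (K + 1), (r : ℝ) ^ 2 * p r - (∑ r ∈ range (K + 1), (r : ℝ) * p r) ^ 2

/-! ## Counting residue classes -/

/-- the number of elements of a residue class in `(0, M]` -/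
lemma card_class (M g v : ℕ) (hg : 0 < g) :
    |((#{x ∈ Ioc 0 M | x ≡ v [MOD g]} : ℕ) : ℝ) - M / g| ≤ 1 := by
  have h := Nat.Ioc_filter_modEq_card 0 M hg v
  have h1 : ((#{x ∈ Ioc 0 M | x ≡ v [MOD g]} : ℕ) : ℚ) =
      max ((⌊((M : ℚ) - v) / (g : ℚ)⌋ : ℚ) - (⌊(((0 : ℕ) : ℚ) - v) / (g : ℚ)⌋ : ℚ)) 0 := by
    exact_mod_cast congrArg (Int.cast : ℤ → ℚ) h
  have hg' : (0 : ℚ) < g := by exact_mod_cast hg
  have e1 := Int.floor_le (((M : ℚ) - v) / (g : ℚ))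
  have e2 := Int.lt_floor_add_one (((M : ℚ) - v) / (g : ℚ))
  have e3 := Int.floor_le ((((0 : ℕ) : ℚ) - v) / (g : ℚ))
  have e4 := Int.lt_floor_add_one ((((0 : ℕ) : ℚ) - v) / (g : ℚ))
  have e5 : ((M : ℚ) - v) / (g : ℚ) - (((0 : ℕ) : ℚ) - v) / (g : ℚ) = M / g := by
    field_simp
    push_cast
    ring
  have e6 : (0 : ℚ) ≤ M / g := by positivity
  have h2 : |((#{x ∈ Ioc 0 M | x ≡ v [MOD g]} : ℕ) : ℚ) - M / g| ≤ 1 := by
    rw [h1, abs_le]
    constructor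
    · have := le_max_left ((⌊((M : ℚ) - v) / (g : ℚ)⌋ : ℚ) -
        (⌊(((0 : ℕ) : ℚ) - v) / (g : ℚ)⌋ : ℚ)) 0
      linarith
    · rcases le_total ((⌊((M : ℚ) - v) / (g : ℚ)⌋ : ℚ) -
        (⌊(((0 : ℕ) : ℚ) - v) / (g : ℚ)⌋ : ℚ)) 0 with h3 | h3
      · rw [max_eq_right h3]
        linarith
      · rw [max_eq_left h3]
        linarith
  have h3 := (Rat.cast_le (K := ℝ)).2 h2
  push_cast at h3
  exact h3

/-- a residue class mod `L` in a full period -/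
lemma card_class_eq (q L v : ℕ) (hL : 0 < L) : #{x ∈ Ioc 0 (L * q) | x ≡ v [MOD L]} = q := by
  have h := Nat.Ioc_filter_modEq_card 0 (L * q) hL v
  have hg' : (L : ℚ) ≠ 0 := by exact_mod_cast hL.ne'
  have h1 : (((L * q : ℕ) : ℚ) - v) / (L : ℚ) = (((0 : ℕ) : ℚ) - v) / (L : ℚ) + (q : ℤ) := by
    field_simp
    push_cast
    ring
  rw [h1, Int.floor_add_intCast, add_sub_cancel_left, max_eq_left (by positivity)] at h
  exact_mod_cast h

/-- the number of pairs in `(0, M]²` which are congruent mod `g` -/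
def S (M g : ℕ) : ℕ := #{x ∈ Ioc 0 M ×ˢ Ioc 0 M | x.1 ≡ x.2 [MOD g]}

lemma S_eq (M g : ℕ) : S M g = ∑ k ∈ Ioc 0 M, #{x ∈ Ioc 0 M | x ≡ k [MOD g]} := by
  unfold S
  rw [card_filter, sum_product]
  refine sum_congr rfl fun k _ => ?_
  rw [card_filter]
  refine sum_congr rfl fun l _ => ?_
  congr 1
  exact propext ⟨Nat.ModEq.symm, Nat.ModEq.symm⟩

lemma S_le (M g : ℕ) (hg : 0 < g) : (g : ℝ) * S M g ≤ M ^ 2 + g * M := by
  have hg' : (0 : ℝ) < g := by exact_mod_cast hg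
  have h1 : (S M g : ℝ) ≤ M * (M / g + 1) := by
    rw [S_eq]
    push_cast
    have : ∀ k ∈ Ioc 0 M, ((#{x ∈ Ioc 0 M | x ≡ k [MOD g]} : ℕ) : ℝ) ≤ M / g + 1 := by
      intro k _
      have := (abs_le.1 (card_class M g k hg)).2
      linarith
    refine (sum_le_sum this).trans ?_
    rw [sum_const, Nat.card_Ioc, Nat.sub_zero, nsmul_eq_mul]
  calc (g : ℝ) * S M g ≤ g * (M * (M / g + 1)) := by gcongr
    _ = M ^ 2 + g * M := by field_simp

lemma S_eq2 (M g : ℕ) (hg : 0 < g) :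
    (S M g : ℝ) = ∑ r ∈ range g, ((#{x ∈ Ioc 0 M | x ≡ r [MOD g]} : ℕ) : ℝ) ^ 2 := by
  rw [S_eq]
  push_cast
  rw [← sum_fiberwise_of_maps_to (t := range g) (g := fun k => k % g)
    (fun k _ => mem_range.2 (Nat.mod_lt k hg))]
  refine sum_congr rfl fun r hr => ?_
  have hr' := mem_range.1 hr
  have h1 : ({x ∈ Ioc 0 M | x % g = r} : Finset ℕ) = {x ∈ Ioc 0 M | x ≡ r [MOD g]} := by
    apply filter_congr
    intro x _
    rw [Nat.ModEq, Nat.mod_eq_of_lt hr']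
  rw [h1, pow_two, ← nsmul_eq_mul, ← sum_const]
  refine sum_congr rfl fun k hk => ?_
  have hk' := (mem_filter.1 hk).2
  congr 2
  apply filter_congr
  intro x _
  exact ⟨fun h => h.trans hk', fun h => h.trans hk'.symm⟩

lemma sum_class (M g : ℕ) (hg : 0 < g) :
    ∑ r ∈ range g, ((#{x ∈ Ioc 0 M | x ≡ r [MOD g]} : ℕ) : ℝ) = M := by
  have h := card_eq_sum_card_fiberwise (s := Ioc 0 M) (t := range g) (f := fun k => k % g)
    (fun k _ => mem_coe.2 (mem_range.2 (Nat.mod_lt k hg)))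
  rw [Nat.card_Ioc, Nat.sub_zero] at h
  have h2 : (M : ℝ) = ((∑ r ∈ range g, #{x ∈ Ioc 0 M | x % g = r} : ℕ) : ℝ) := by
    exact_mod_cast congrArg (Nat.cast : ℕ → ℝ) h
  rw [h2]
  push_cast
  refine sum_congr rfl fun r hr => ?_
  have hr' := mem_range.1 hr
  congr 2
  apply filter_congr
  intro x _
  rw [Nat.ModEq, Nat.mod_eq_of_lt hr']

lemma S_two (M g : ℕ) (hg : 0 < g) :
    (M : ℝ) ^ 2 ≤ g * S M g ∧ (g : ℝ) * S M g ≤ M ^ 2 + g ^ 2 := by
  have hg' : (0 : ℝ) < g := by exact_mod_cast hg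
  have key : ∑ r ∈ range g, (((#{x ∈ Ioc 0 M | x ≡ r [MOD g]} : ℕ) : ℝ) - M / g) ^ 2 =
      S M g - M ^ 2 / g := by
    have : ∀ r : ℕ, (((#{x ∈ Ioc 0 M | x ≡ r [MOD g]} : ℕ) : ℝ) - M / g) ^ 2 =
        ((#{x ∈ Ioc 0 M | x ≡ r [MOD g]} : ℕ) : ℝ) ^ 2 -
        2 * (M / g) * ((#{x ∈ Ioc 0 M | x ≡ r [MOD g]} : ℕ) : ℝ) + (M / g) ^ 2 := fun r => by ring
    simp_rw [this]
    rw [sum_add_distrib, sum_sub_distrib, ← mul_sum, ← S_eq2 M g hg, sum_class M g hg, sum_const,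
      card_range, nsmul_eq_mul]
    field_simp
    ring
  have h0 : 0 ≤ ∑ r ∈ range g, (((#{x ∈ Ioc 0 M | x ≡ r [MOD g]} : ℕ) : ℝ) - M / g) ^ 2 :=
    sum_nonneg fun r _ => sq_nonneg _
  have h1 : ∑ r ∈ range g, (((#{x ∈ Ioc 0 M | x ≡ r [MOD g]} : ℕ) : ℝ) - M / g) ^ 2 ≤ g := by
    have : ∀ r ∈ range g, (((#{x ∈ Ioc 0 M | x ≡ r [MOD g]} : ℕ) : ℝ) - M / g) ^ 2 ≤ 1 := by
      intro r _
      have := card_class M g r hg
      rw [← sq_abs]
      exact pow_le_one₀ (abs_nonneg _) this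
    refine (sum_le_sum this).trans ?_
    simp
  rw [key] at h0 h1
  have h2 : (g : ℝ) * (M ^ 2 / g) = M ^ 2 := by field_simp
  constructor
  · have := mul_nonneg hg'.le h0
    rw [mul_sub, h2] at this
    linarith
  · have := mul_le_mul_of_nonneg_left h1 hg'.le
    rw [mul_sub, h2] at this
    linarith

/-- the number of multiples of `d` among `a + 1, ..., a + M` -/
def N (M d a : ℕ) : ℕ := #{k ∈ Ioc 0 M | d ∣ a + k}

/-- simultaneous congruences in a full period -/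
lemma card_crt {P d e k k' : ℕ} (hP : 0 < P) (hd : d ∣ P) (he : e ∣ P) :
    #{a ∈ Ioc 0 P | d ∣ a + k ∧ e ∣ a + k'} =
      if k ≡ k' [MOD Nat.gcd d e] then P / Nat.lcm d e else 0 := by
  have hd0 : 0 < d := Nat.pos_of_dvd_of_pos hd hP
  have he0 : 0 < e := Nat.pos_of_dvd_of_pos he hP
  split_ifs with h
  · -- a solution
    have h1 : (d - 1) * k ≡ (e - 1) * k' [MOD Nat.gcd d e] := by
      apply Nat.ModEq.add_right_cancel h
      have e1 : (d - 1) * k + k = d * k := by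
        obtain ⟨d', rfl⟩ := Nat.exists_eq_succ_of_ne_zero hd0.ne'
        simp
        ring
      have e2 : (e - 1) * k' + k' = e * k' := by
        obtain ⟨e', rfl⟩ := Nat.exists_eq_succ_of_ne_zero he0.ne'
        simp
        ring
      rw [e1, e2]
      exact ((Nat.modEq_zero_iff_dvd.2 ((Nat.gcd_dvd_left d e).mul_right k))).trans
        (Nat.modEq_zero_iff_dvd.2 ((Nat.gcd_dvd_right d e).mul_right k')).symm
    obtain ⟨a₀, h2, h3⟩ := Nat.chineseRemainder' h1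
    have h4 : d ∣ a₀ + k := by
      rw [← Nat.modEq_zero_iff_dvd]
      have e1 : (d - 1) * k + k = d * k := by
        obtain ⟨d', rfl⟩ := Nat.exists_eq_succ_of_ne_zero hd0.ne'
        simp
        ring
      refine (h2.add_right k).trans ?_
      rw [e1]
      exact Nat.modEq_zero_iff_dvd.2 (dvd_mul_right _ _)
    have h5 : e ∣ a₀ + k' := by
      rw [← Nat.modEq_zero_iff_dvd]
      have e1 : (e - 1) * k' + k' = e * k' := by
        obtain ⟨d', rfl⟩ := Nat.exists_eq_succ_of_ne_zero he0.ne'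
        simp
        ring
      refine (h3.add_right k').trans ?_
      rw [e1]
      exact Nat.modEq_zero_iff_dvd.2 (dvd_mul_right _ _)
    have hL : Nat.lcm d e ∣ P := Nat.lcm_dvd hd he
    have hL0 : 0 < Nat.lcm d e := Nat.pos_of_dvd_of_pos hL hP
    have hset : ({a ∈ Ioc 0 P | d ∣ a + k ∧ e ∣ a + k'} : Finset ℕ) =
        {a ∈ Ioc 0 (Nat.lcm d e * (P / Nat.lcm d e)) | a ≡ a₀ [MOD Nat.lcm d e]} := by
      rw [Nat.mul_div_cancel' hL]
      apply filter_congr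
      intro a _
      constructor
      · rintro ⟨h6, h7⟩
        have h8 : a ≡ a₀ [MOD d] := by
          apply Nat.ModEq.add_right_cancel' k
          exact (Nat.modEq_zero_iff_dvd.2 h6).trans (Nat.modEq_zero_iff_dvd.2 h4).symm
        have h9 : a ≡ a₀ [MOD e] := by
          apply Nat.ModEq.add_right_cancel' k'
          exact (Nat.modEq_zero_iff_dvd.2 h7).trans (Nat.modEq_zero_iff_dvd.2 h5).symm
        rw [Nat.modEq_iff_dvd] at h8 h9 ⊢
        have := Int.coe_lcm_dvd h8 h9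
        simpa [Int.lcm] using this
      · intro h6
        constructor
        · rw [← Nat.modEq_zero_iff_dvd]
          exact ((h6.of_dvd (Nat.dvd_lcm_left d e)).add_right k).trans
            (Nat.modEq_zero_iff_dvd.2 h4)
        · rw [← Nat.modEq_zero_iff_dvd]
          exact ((h6.of_dvd (Nat.dvd_lcm_right d e)).add_right k').trans
            (Nat.modEq_zero_iff_dvd.2 h5)
    rw [hset, card_class_eq _ _ _ hL0]
  · rw [card_eq_zero, filter_eq_empty_iff]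
    rintro a _ ⟨h1, h2⟩
    apply h
    apply Nat.ModEq.add_left_cancel' a
    exact (Nat.modEq_zero_iff_dvd.2 ((Nat.gcd_dvd_left d e).trans h1)).trans
      (Nat.modEq_zero_iff_dvd.2 ((Nat.gcd_dvd_right d e).trans h2)).symm

/-- the correlation of the counts of multiples -/
lemma sum_N_N {P d e M : ℕ} (hP : 0 < P) (hd : d ∣ P) (he : e ∣ P) :
    ∑ a ∈ Ioc 0 P, N M d a * N M e a = S M (Nat.gcd d e) * (P / Nat.lcm d e) := by
  have h1 : ∀ a, N M d a * N M e a =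
      ∑ x ∈ Ioc 0 M ×ˢ Ioc 0 M, if d ∣ a + x.1 ∧ e ∣ a + x.2 then 1 else 0 := by
    intro a
    unfold N
    rw [card_filter, card_filter, sum_mul_sum, sum_product]
    refine sum_congr rfl fun k _ => sum_congr rfl fun l _ => ?_
    by_cases h : d ∣ a + k <;> by_cases h' : e ∣ a + l <;> simp [h, h']
  simp_rw [h1]
  rw [sum_comm]
  have h2 : ∀ x ∈ Ioc 0 M ×ˢ Ioc 0 M, (∑ a ∈ Ioc 0 P, if d ∣ a + x.1 ∧ e ∣ a + x.2 then 1 else 0) =
      if x.1 ≡ x.2 [MOD Nat.gcd d e] then P / Nat.lcm d e else 0 := by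
    intro x _
    rw [← card_filter, card_crt hP hd he]
  rw [sum_congr rfl h2, ← sum_filter, sum_const, smul_eq_mul]
  rfl

/-- the truncated count -/
def Y (M P a b : ℕ) : ℕ :=
  #{x ∈ Ioc 0 M ×ˢ Ioc 0 M | Nat.Coprime (Nat.gcd (a + x.1) (b + x.2)) P}

lemma moebius_sum {P g : ℕ} (hP : 0 < P) :
    ∑ d ∈ P.divisors, (if d ∣ g then (ArithmeticFunction.moebius d : ℝ) else 0) =
      if Nat.Coprime g P then 1 else 0 := by
  have h1 : ∑ d ∈ (Nat.gcd g P).divisors, ArithmeticFunction.moebius d =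
      if Nat.gcd g P = 1 then 1 else 0 := by
    have := DFunLike.congr_fun ArithmeticFunction.moebius_mul_coe_zeta (Nat.gcd g P)
    rw [ArithmeticFunction.coe_mul_zeta_apply, ArithmeticFunction.one_apply] at this
    exact this
  have h2 : P.divisors.filter (fun d => d ∣ g) = (Nat.gcd g P).divisors := by
    ext d
    simp only [mem_filter, Nat.mem_divisors, Nat.dvd_gcd_iff]
    constructor
    · rintro ⟨⟨h3, h4⟩, h5⟩
      exact ⟨⟨h5, h3⟩, fun h => h4 (Nat.gcd_eq_zero_iff.1 h).2⟩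
    · rintro ⟨⟨h3, h4⟩, h5⟩
      exact ⟨⟨h4, hP.ne'⟩, h3⟩
  rw [← sum_filter, h2]
  unfold Nat.Coprime
  have := congrArg (Int.cast : ℤ → ℝ) h1
  push_cast at this
  rw [this]

lemma Y_eq {M P : ℕ} (hP : 0 < P) (a b : ℕ) :
    (Y M P a b : ℝ) = ∑ d ∈ P.divisors, (ArithmeticFunction.moebius d : ℝ) * (N M d a * N M d b) := by
  unfold Y
  rw [card_filter]
  push_cast
  have h1 : ∀ x : ℕ × ℕ, (if Nat.Coprime (Nat.gcd (a + x.1) (b + x.2)) P then (1 : ℝ) else 0) =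
      ∑ d ∈ P.divisors, (if d ∣ Nat.gcd (a + x.1) (b + x.2) then
        (ArithmeticFunction.moebius d : ℝ) else 0) := fun x => (moebius_sum hP).symm
  simp_rw [h1]
  rw [sum_comm]
  refine sum_congr rfl fun d _ => ?_
  unfold N
  rw [card_filter, card_filter]
  push_cast
  rw [sum_mul_sum, mul_sum, sum_product]
  refine sum_congr rfl fun k _ => ?_
  rw [mul_sum]
  refine sum_congr rfl fun l _ => ?_
  by_cases h : d ∣ a + k <;> by_cases h' : d ∣ b + l <;> simp [h, h', Nat.dvd_gcd_iff]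

lemma sum_inv_sq_le (n : ℕ) : ∑ m ∈ Icc 1 n, ((m : ℝ) ^ 2)⁻¹ ≤ 2 := by
  rcases Nat.eq_zero_or_pos n with rfl | hn
  · simp
  · have h1 : Icc 1 n = insert 1 (Ioc 1 n) := by
      ext m
      simp only [mem_Icc, mem_insert, mem_Ioc]
      omega
    rw [h1, sum_insert (by simp)]
    have h2 := sum_Ioc_inv_sq_le_sub (α := ℝ) (k := 1) (n := n) one_ne_zero hn
    have h3 : (0 : ℝ) ≤ (n : ℝ)⁻¹ := by positivity
    push_cast at h2 ⊢
    norm_num at h2 ⊢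
    linarith

lemma sum_subset_le {F : Finset ℕ} {n : ℕ} (hF : F ⊆ Icc 1 n) : ∑ m ∈ F, ((m : ℝ) ^ 2)⁻¹ ≤ 2 :=
  (sum_le_sum_of_subset_of_nonneg hF fun m _ _ => by positivity).trans (sum_inv_sq_le n)

lemma sum_multiples {P g : ℕ} (hg : 0 < g) :
    ∑ d ∈ P.divisors with g ∣ d, ((d : ℝ) ^ 2)⁻¹ ≤ 2 * ((g : ℝ) ^ 2)⁻¹ := by
  have h1 : ∀ d ∈ P.divisors.filter (fun d => g ∣ d),
      ((d : ℝ) ^ 2)⁻¹ = ((g : ℝ) ^ 2)⁻¹ * (((d / g : ℕ) : ℝ) ^ 2)⁻¹ := by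
    intro d hd
    have hgd := (mem_filter.1 hd).2
    obtain ⟨m, rfl⟩ := hgd
    rw [Nat.mul_div_cancel_left m hg]
    push_cast
    rw [mul_pow, mul_inv]
  rw [sum_congr rfl h1, ← mul_sum, mul_comm]
  have hinj : Set.InjOn (fun d => d / g) (P.divisors.filter (fun d => g ∣ d) : Set ℕ) := by
    intro d hd d' hd' h
    have h2 := (mem_filter.1 (mem_coe.1 hd)).2
    have h3 := (mem_filter.1 (mem_coe.1 hd')).2
    rw [← Nat.mul_div_cancel' h2, ← Nat.mul_div_cancel' h3]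
    exact congrArg (g * ·) h
  apply mul_le_mul_of_nonneg_right _ (by positivity)
  have h4 : ∑ d ∈ P.divisors.filter (fun d => g ∣ d), (((d / g : ℕ) : ℝ) ^ 2)⁻¹ =
      ∑ m ∈ (P.divisors.filter (fun d => g ∣ d)).image (fun d => d / g), ((m : ℝ) ^ 2)⁻¹ :=
    (sum_image (f := fun m : ℕ => ((m : ℝ) ^ 2)⁻¹) hinj).symm
  rw [h4]
  apply sum_subset_le (n := P)
  intro m hm
  obtain ⟨d, hd, rfl⟩ := mem_image.1 hm
  obtain ⟨hd1, hd2⟩ := mem_filter.1 hd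
  rw [mem_Icc]
  constructor
  · exact Nat.div_pos (Nat.le_of_dvd (Nat.pos_of_mem_divisors hd1) hd2) hg
  · exact (Nat.div_le_self _ _).trans (Nat.divisor_le hd1)

lemma sum_gcd {P : ℕ} (hP : 0 < P) :
    ∑ d ∈ P.divisors, ∑ e ∈ P.divisors, ((Nat.gcd d e : ℕ) : ℝ) ^ 2 / ((d : ℝ) * e) ^ 2 ≤ 8 := by
  have h1 : ∀ d ∈ P.divisors, ∀ e ∈ P.divisors,
      ((Nat.gcd d e : ℕ) : ℝ) ^ 2 / ((d : ℝ) * e) ^ 2 ≤
      ∑ g ∈ P.divisors, (g : ℝ) ^ 2 * ((if g ∣ d then ((d : ℝ) ^ 2)⁻¹ else 0) *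
        (if g ∣ e then ((e : ℝ) ^ 2)⁻¹ else 0)) := by
    intro d hd e he
    have h2 : Nat.gcd d e ∈ P.divisors := by
      rw [Nat.mem_divisors]
      exact ⟨(Nat.gcd_dvd_left d e).trans (Nat.dvd_of_mem_divisors hd), hP.ne'⟩
    refine le_trans (le_of_eq ?_) (single_le_sum (f := fun g : ℕ => (g : ℝ) ^ 2 *
      ((if g ∣ d then ((d : ℝ) ^ 2)⁻¹ else 0) * (if g ∣ e then ((e : ℝ) ^ 2)⁻¹ else 0)))
      (fun g _ => ?_) h2)
    · rw [if_pos (Nat.gcd_dvd_left d e), if_pos (Nat.gcd_dvd_right d e), mul_pow, div_eq_mul_inv,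
        mul_inv]
    · positivity
  refine (sum_le_sum fun d hd => sum_le_sum fun e he => h1 d hd e he).trans ?_
  have h3 : ∑ d ∈ P.divisors, ∑ e ∈ P.divisors, ∑ g ∈ P.divisors, (g : ℝ) ^ 2 *
      ((if g ∣ d then ((d : ℝ) ^ 2)⁻¹ else 0) * (if g ∣ e then ((e : ℝ) ^ 2)⁻¹ else 0)) =
      ∑ g ∈ P.divisors, (g : ℝ) ^ 2 * (∑ d ∈ P.divisors with g ∣ d, ((d : ℝ) ^ 2)⁻¹) ^ 2 := by
    have h4 : ∀ d ∈ P.divisors, ∑ e ∈ P.divisors, ∑ g ∈ P.divisors, (g : ℝ) ^ 2 *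
      ((if g ∣ d then ((d : ℝ) ^ 2)⁻¹ else 0) * (if g ∣ e then ((e : ℝ) ^ 2)⁻¹ else 0)) =
      ∑ g ∈ P.divisors, ∑ e ∈ P.divisors, (g : ℝ) ^ 2 *
      ((if g ∣ d then ((d : ℝ) ^ 2)⁻¹ else 0) * (if g ∣ e then ((e : ℝ) ^ 2)⁻¹ else 0)) :=
      fun d _ => sum_comm
    rw [sum_congr rfl h4, sum_comm]
    refine sum_congr rfl fun g _ => ?_
    rw [pow_two (∑ d ∈ P.divisors with g ∣ d, ((d : ℝ) ^ 2)⁻¹), sum_filter, sum_mul_sum, mul_sum]
    refine sum_congr rfl fun d _ => ?_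
    rw [mul_sum]
  rw [h3]
  have h5 : ∀ g ∈ P.divisors,
      (g : ℝ) ^ 2 * (∑ d ∈ P.divisors with g ∣ d, ((d : ℝ) ^ 2)⁻¹) ^ 2 ≤ 4 * ((g : ℝ) ^ 2)⁻¹ := by
    intro g hg
    have hg0 : 0 < g := Nat.pos_of_mem_divisors hg
    have hg1 : (0 : ℝ) < g := by exact_mod_cast hg0
    have h6 := sum_multiples (P := P) hg0
    have h7 : 0 ≤ ∑ d ∈ P.divisors with g ∣ d, ((d : ℝ) ^ 2)⁻¹ :=
      sum_nonneg fun d _ => by positivity
    calc (g : ℝ) ^ 2 * (∑ d ∈ P.divisors with g ∣ d, ((d : ℝ) ^ 2)⁻¹) ^ 2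
        ≤ (g : ℝ) ^ 2 * (2 * ((g : ℝ) ^ 2)⁻¹) ^ 2 := by gcongr
      _ = 4 * ((g : ℝ) ^ 2)⁻¹ := by field_simp; norm_num
  refine (sum_le_sum h5).trans ?_
  rw [← mul_sum]
  have h8 : ∑ g ∈ P.divisors, ((g : ℝ) ^ 2)⁻¹ ≤ 2 := by
    apply sum_subset_le (n := P)
    intro g hg
    rw [mem_Icc]
    exact ⟨Nat.pos_of_mem_divisors hg, Nat.divisor_le hg⟩
  linarith

lemma sum_N {P d M : ℕ} (hP : 0 < P) (hd : d ∣ P) :
    ∑ a ∈ Ioc 0 P, N M d a = M * (P / d) := by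
  unfold N
  simp_rw [card_filter]
  rw [sum_comm]
  have h2 : ∀ k ∈ Ioc 0 M, (∑ a ∈ Ioc 0 P, if d ∣ a + k then 1 else 0) = P / d := by
    intro k _
    have := card_crt (k := k) (k' := k) hP hd hd
    rw [if_pos (Nat.ModEq.refl k), Nat.lcm_self] at this
    simp only [and_self] at this
    rw [← card_filter, this]
  rw [sum_congr rfl h2, sum_const, Nat.card_Ioc, smul_eq_mul, Nat.sub_zero]

/-- the average over a full period -/
noncomputable def avg (P : ℕ) (f : ℕ → ℕ → ℝ) : ℝ :=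
  (∑ a ∈ Ioc 0 P, ∑ b ∈ Ioc 0 P, f a b) / (P : ℝ) ^ 2

lemma avg_Y {M P : ℕ} (hP : 0 < P) : avg P (fun a b => (Y M P a b : ℝ)) =
    ∑ d ∈ P.divisors, (ArithmeticFunction.moebius d : ℝ) * ((M : ℝ) / d) ^ 2 := by
  have hP' : (P : ℝ) ≠ 0 := by exact_mod_cast hP.ne'
  unfold avg
  simp_rw [Y_eq hP]
  have h1 : ∑ a ∈ Ioc 0 P, ∑ b ∈ Ioc 0 P, ∑ d ∈ P.divisors,
      (ArithmeticFunction.moebius d : ℝ) * ((N M d a : ℝ) * (N M d b : ℝ)) =
      ∑ d ∈ P.divisors, (ArithmeticFunction.moebius d : ℝ) *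
        (∑ a ∈ Ioc 0 P, (N M d a : ℝ)) ^ 2 := by
    have : ∀ a ∈ Ioc 0 P, ∑ b ∈ Ioc 0 P, ∑ d ∈ P.divisors,
        (ArithmeticFunction.moebius d : ℝ) * ((N M d a : ℝ) * (N M d b : ℝ)) =
        ∑ d ∈ P.divisors, ∑ b ∈ Ioc 0 P,
        (ArithmeticFunction.moebius d : ℝ) * ((N M d a : ℝ) * (N M d b : ℝ)) := fun a _ => sum_comm
    rw [sum_congr rfl this, sum_comm]
    refine sum_congr rfl fun d _ => ?_
    rw [pow_two, sum_mul_sum, mul_sum]
    refine sum_congr rfl fun a _ => ?_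
    rw [mul_sum]
  rw [h1, sum_div]
  refine sum_congr rfl fun d hd => ?_
  have hdP := Nat.dvd_of_mem_divisors hd
  have hd0 : (d : ℝ) ≠ 0 := by exact_mod_cast (Nat.pos_of_mem_divisors hd).ne'
  have h2 : ∑ a ∈ Ioc 0 P, (N M d a : ℝ) = M * (P / d) := by
    have := congrArg (Nat.cast : ℕ → ℝ) (sum_N (M := M) hP hdP)
    push_cast [Nat.cast_div hdP hd0] at this
    exact this
  rw [h2]
  field_simp

lemma swap4 (F : ℕ → ℕ → ℕ → ℕ → ℝ) (A D : Finset ℕ) :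
    ∑ a ∈ A, ∑ b ∈ A, ∑ d ∈ D, ∑ e ∈ D, F a b d e =
      ∑ d ∈ D, ∑ e ∈ D, ∑ a ∈ A, ∑ b ∈ A, F a b d e := by
  calc ∑ a ∈ A, ∑ b ∈ A, ∑ d ∈ D, ∑ e ∈ D, F a b d e
      = ∑ a ∈ A, ∑ d ∈ D, ∑ b ∈ A, ∑ e ∈ D, F a b d e := sum_congr rfl fun a _ => sum_comm
    _ = ∑ d ∈ D, ∑ a ∈ A, ∑ b ∈ A, ∑ e ∈ D, F a b d e := sum_comm
    _ = ∑ d ∈ D, ∑ a ∈ A, ∑ e ∈ D, ∑ b ∈ A, F a b d e :=
        sum_congr rfl fun d _ => sum_congr rfl fun a _ => sum_comm
    _ = ∑ d ∈ D, ∑ e ∈ D, ∑ a ∈ A, ∑ b ∈ A, F a b d e := sum_congr rfl fun d _ => sum_comm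

lemma avg_Y2 {M P : ℕ} (hP : 0 < P) : avg P (fun a b => (Y M P a b : ℝ) ^ 2) =
    ∑ d ∈ P.divisors, ∑ e ∈ P.divisors, (ArithmeticFunction.moebius d : ℝ) *
      (ArithmeticFunction.moebius e : ℝ) *
      ((Nat.gcd d e : ℝ) * S M (Nat.gcd d e) / (d * e)) ^ 2 := by
  have hP' : (P : ℝ) ≠ 0 := by exact_mod_cast hP.ne'
  unfold avg
  have h0 : ∀ a b, (Y M P a b : ℝ) ^ 2 = ∑ d ∈ P.divisors, ∑ e ∈ P.divisors,
      (ArithmeticFunction.moebius d : ℝ) * (ArithmeticFunction.moebius e : ℝ) *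
      (((N M d a : ℝ) * N M e a) * ((N M d b : ℝ) * N M e b)) := by
    intro a b
    rw [Y_eq hP, pow_two, sum_mul_sum]
    refine sum_congr rfl fun d _ => sum_congr rfl fun e _ => ?_
    ring
  simp_rw [h0]
  have h1 : ∑ a ∈ Ioc 0 P, ∑ b ∈ Ioc 0 P, ∑ d ∈ P.divisors, ∑ e ∈ P.divisors,
      (ArithmeticFunction.moebius d : ℝ) * (ArithmeticFunction.moebius e : ℝ) *
      (((N M d a : ℝ) * N M e a) * ((N M d b : ℝ) * N M e b)) =
      ∑ d ∈ P.divisors, ∑ e ∈ P.divisors, (ArithmeticFunction.moebius d : ℝ) *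
      (ArithmeticFunction.moebius e : ℝ) * (∑ a ∈ Ioc 0 P, (N M d a : ℝ) * N M e a) ^ 2 := by
    rw [swap4]
    simp_rw [pow_two, sum_mul_sum, mul_sum]
  rw [h1, sum_div]
  refine sum_congr rfl fun d hd => ?_
  rw [sum_div]
  refine sum_congr rfl fun e he => ?_
  have hdP := Nat.dvd_of_mem_divisors hd
  have heP := Nat.dvd_of_mem_divisors he
  have hd0 : (d : ℝ) ≠ 0 := by exact_mod_cast (Nat.pos_of_mem_divisors hd).ne'
  have he0 : (e : ℝ) ≠ 0 := by exact_mod_cast (Nat.pos_of_mem_divisors he).ne'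
  have hL : Nat.lcm d e ∣ P := Nat.lcm_dvd hdP heP
  have hL0 : ((Nat.lcm d e : ℕ) : ℝ) ≠ 0 := by
    exact_mod_cast (Nat.pos_of_dvd_of_pos hL hP).ne'
  have h2 : ∑ a ∈ Ioc 0 P, (N M d a : ℝ) * N M e a = S M (Nat.gcd d e) * (P / Nat.lcm d e) := by
    have := congrArg (Nat.cast : ℕ → ℝ) (sum_N_N (M := M) hP hdP heP)
    push_cast [Nat.cast_div hL hL0] at this
    exact this
  have h3 : ((Nat.gcd d e : ℕ) : ℝ) * (Nat.lcm d e : ℕ) = d * e := by
    exact_mod_cast congrArg (Nat.cast : ℕ → ℝ) (Nat.gcd_mul_lcm d e)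
  rw [h2, ← h3]
  have hg0 : ((Nat.gcd d e : ℕ) : ℝ) ≠ 0 := by
    intro h
    rw [h, zero_mul] at h3
    exact mul_ne_zero hd0 he0 h3.symm
  field_simp

lemma moebius_abs (d : ℕ) : |(ArithmeticFunction.moebius d : ℝ)| ≤ 1 := by
  have := ArithmeticFunction.abs_moebius_le_one (n := d)
  exact_mod_cast this

/-- the variance over a full period -/
lemma var_Y {M P : ℕ} (hP : 0 < P) :
    avg P (fun a b => (Y M P a b : ℝ) ^ 2) - (avg P (fun a b => (Y M P a b : ℝ))) ^ 2 ≤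
      24 * (M : ℝ) ^ 2 := by
  rw [avg_Y hP, avg_Y2 hP, pow_two (∑ d ∈ P.divisors, _), sum_mul_sum, ← sum_sub_distrib]
  have h1 : ∀ d ∈ P.divisors,
      ∑ e ∈ P.divisors, (ArithmeticFunction.moebius d : ℝ) * (ArithmeticFunction.moebius e : ℝ) *
        ((Nat.gcd d e : ℝ) * S M (Nat.gcd d e) / (d * e)) ^ 2 -
      ∑ e ∈ P.divisors, (ArithmeticFunction.moebius d : ℝ) * ((M : ℝ) / d) ^ 2 *
        ((ArithmeticFunction.moebius e : ℝ) * ((M : ℝ) / e) ^ 2) ≤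
      ∑ e ∈ P.divisors, 3 * (M : ℝ) ^ 2 *
        (((Nat.gcd d e : ℕ) : ℝ) ^ 2 / ((d : ℝ) * e) ^ 2) := by
    intro d hd
    rw [← sum_sub_distrib]
    refine sum_le_sum fun e he => ?_
    have hd0 : (0 : ℝ) < d := by exact_mod_cast Nat.pos_of_mem_divisors hd
    have he0 : (0 : ℝ) < e := by exact_mod_cast Nat.pos_of_mem_divisors he
    have hg : 0 < Nat.gcd d e := Nat.gcd_pos_of_pos_left e (Nat.pos_of_mem_divisors hd)
    set g := Nat.gcd d e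
    have hg0 : (0 : ℝ) < g := by exact_mod_cast hg
    have hM : (0 : ℝ) ≤ M := Nat.cast_nonneg M
    have s1 := S_le M g hg
    obtain ⟨s2, s3⟩ := S_two M g hg
    set x := (g : ℝ) * S M g
    have e1 : (ArithmeticFunction.moebius d : ℝ) * (ArithmeticFunction.moebius e : ℝ) *
        (x / (d * e)) ^ 2 - (ArithmeticFunction.moebius d : ℝ) * ((M : ℝ) / d) ^ 2 *
        ((ArithmeticFunction.moebius e : ℝ) * ((M : ℝ) / e) ^ 2) =
        ((ArithmeticFunction.moebius d : ℝ) * (ArithmeticFunction.moebius e : ℝ)) *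
        ((x ^ 2 - M ^ 4) / (d * e) ^ 2) := by
      field_simp
    rw [e1]
    have h2 : 0 ≤ (x ^ 2 - M ^ 4) / ((d : ℝ) * e) ^ 2 := by
      apply div_nonneg _ (by positivity)
      have : (M : ℝ) ^ 4 = (M ^ 2) ^ 2 := by ring
      rw [this]
      have := pow_le_pow_left₀ (by positivity) s2 2
      linarith
    have h3 : x ^ 2 - M ^ 4 ≤ 3 * (M : ℝ) ^ 2 * g ^ 2 := by
      have t1 : 0 ≤ x - M ^ 2 := by linarith
      have t2 : x - M ^ 2 ≤ g * M := by linarith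
      have t3 : x - M ^ 2 ≤ g ^ 2 := by linarith
      have t4 : (x - M ^ 2) ^ 2 ≤ (g * M) ^ 2 := pow_le_pow_left₀ t1 t2 2
      have t5 : 2 * (M : ℝ) ^ 2 * (x - M ^ 2) ≤ 2 * (M : ℝ) ^ 2 * g ^ 2 := by gcongr
      nlinarith
    have h4 : (ArithmeticFunction.moebius d : ℝ) * (ArithmeticFunction.moebius e : ℝ) ≤ 1 := by
      have := mul_le_mul (moebius_abs d) (moebius_abs e) (abs_nonneg _) zero_le_one
      rw [← abs_mul, mul_one] at this
      exact (le_abs_self _).trans this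
    calc ((ArithmeticFunction.moebius d : ℝ) * (ArithmeticFunction.moebius e : ℝ)) *
          ((x ^ 2 - M ^ 4) / (d * e) ^ 2) ≤ 1 * ((x ^ 2 - M ^ 4) / (d * e) ^ 2) :=
            mul_le_mul_of_nonneg_right h4 h2
      _ ≤ 1 * ((3 * (M : ℝ) ^ 2 * g ^ 2) / (d * e) ^ 2) := by gcongr
      _ = 3 * (M : ℝ) ^ 2 * ((g : ℝ) ^ 2 / ((d : ℝ) * e) ^ 2) := by ring
  refine (sum_le_sum h1).trans ?_
  simp_rw [← mul_sum]
  have := sum_gcd hP
  nlinarith [sq_nonneg (M : ℝ)]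

/-! ## The limit `n → ∞` -/

lemma Z_eq (M a b : ℕ) :
    Z M a b = #{x ∈ Ioc 0 M ×ˢ Ioc 0 M | Nat.Coprime (a + x.1) (b + x.2)} := by
  unfold Z
  apply card_nbij' (fun x => (x.1 - a, x.2 - b)) (fun x => (a + x.1, b + x.2))
  · intro x hx
    simp only [coe_filter, mem_product, mem_Icc, Set.mem_ofPred_eq, mem_Ioc] at hx ⊢
    obtain ⟨⟨⟨h1, h2⟩, h3, h4⟩, h5⟩ := hx
    rw [Nat.add_sub_cancel' (by omega), Nat.add_sub_cancel' (by omega)]
    exact ⟨⟨⟨by omega, by omega⟩, by omega, by omega⟩, h5⟩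
  · intro x hx
    simp only [coe_filter, mem_product, mem_Icc, Set.mem_ofPred_eq, mem_Ioc] at hx ⊢
    obtain ⟨⟨⟨h1, h2⟩, h3, h4⟩, h5⟩ := hx
    exact ⟨⟨⟨by omega, by omega⟩, by omega, by omega⟩, h5⟩
  · intro x hx
    simp only [coe_filter, mem_product, mem_Icc, Set.mem_ofPred_eq] at hx
    obtain ⟨⟨⟨h1, h2⟩, h3, h4⟩, h5⟩ := hx
    ext <;> simp only <;> omega
  · intro x _
    ext <;> simp

lemma Z_le_Y (M P a b : ℕ) : Z M a b ≤ Y M P a b := by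
  rw [Z_eq]
  unfold Y
  apply card_le_card
  intro x hx
  rw [mem_filter] at hx ⊢
  refine ⟨hx.1, ?_⟩
  have : Nat.gcd (a + x.1) (b + x.2) = 1 := hx.2
  rw [this]
  exact Nat.coprime_one_left P

lemma Y_le (M P a b : ℕ) : Y M P a b ≤ M ^ 2 := by
  unfold Y
  refine (card_filter_le _ _).trans ?_
  rw [card_product, Nat.card_Ioc, Nat.sub_zero, pow_two]

/-- the bad pairs -/
def Bad (P u v : ℕ) : Prop := Nat.Coprime (Nat.gcd u v) P ∧ Nat.gcd u v ≠ 1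

lemma exists_bad {M P a b : ℕ} (h : Z M a b ≠ Y M P a b) :
    ∃ x ∈ Ioc 0 M ×ˢ Ioc 0 M, Bad P (a + x.1) (b + x.2) := by
  by_contra hcon
  push Not at hcon
  apply h
  rw [Z_eq]
  unfold Y
  congr 1
  apply filter_congr
  intro x hx
  have := hcon x hx
  unfold Bad at this
  constructor
  · intro h1
    have : Nat.gcd (a + x.1) (b + x.2) = 1 := h1
    rw [this]
    exact Nat.coprime_one_left P
  · intro h1
    by_contra h2
    exact this ⟨h1, h2⟩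

lemma card_bad (y K : ℕ) (hy : 0 < y) [DecidablePred fun x : ℕ × ℕ => Bad y.factorial x.1 x.2] :
    ((#{x ∈ Ioc 0 K ×ˢ Ioc 0 K | Bad y.factorial x.1 x.2} : ℕ) : ℝ) ≤ (K : ℝ) ^ 2 / y := by
  have h1 : ({x ∈ Ioc 0 K ×ˢ Ioc 0 K | Bad y.factorial x.1 x.2} : Finset (ℕ × ℕ)) ⊆
      (Ioc y (max y K)).biUnion fun m =>
        ({u ∈ Ioc 0 K | m ∣ u} : Finset ℕ) ×ˢ ({v ∈ Ioc 0 K | m ∣ v} : Finset ℕ) := by
    intro x hx
    rw [mem_filter, mem_product, mem_Ioc, mem_Ioc] at hx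
    obtain ⟨⟨⟨h1, h2⟩, h3, h4⟩, h5, h6⟩ := hx
    obtain ⟨p, hp, hpd⟩ := Nat.exists_prime_and_dvd h6
    have hpy : y < p := by
      by_contra hle
      push Not at hle
      have h7 : p ∣ y.factorial := Nat.dvd_factorial hp.pos hle
      have h8 := Nat.dvd_gcd hpd h7
      rw [h5] at h8
      exact hp.one_lt.ne' (Nat.dvd_one.1 h8)
    have hpu : p ∣ x.1 := hpd.trans (Nat.gcd_dvd_left _ _)
    have hpv : p ∣ x.2 := hpd.trans (Nat.gcd_dvd_right _ _)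
    rw [mem_biUnion]
    refine ⟨p, ?_, ?_⟩
    · rw [mem_Ioc]
      exact ⟨hpy, (Nat.le_of_dvd h1 hpu).trans (h2.trans (le_max_right _ _))⟩
    · rw [mem_product, mem_filter, mem_filter, mem_Ioc, mem_Ioc]
      exact ⟨⟨⟨h1, h2⟩, hpu⟩, ⟨h3, h4⟩, hpv⟩
  have h2 : ((#{x ∈ Ioc 0 K ×ˢ Ioc 0 K | Bad y.factorial x.1 x.2} : ℕ) : ℝ) ≤
      ∑ m ∈ Ioc y (max y K), (K : ℝ) ^ 2 * ((m : ℝ) ^ 2)⁻¹ := by
    have h3 := (card_le_card h1).trans card_biUnion_le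
    have h4 : ((#{x ∈ Ioc 0 K ×ˢ Ioc 0 K | Bad y.factorial x.1 x.2} : ℕ) : ℝ) ≤
        ∑ m ∈ Ioc y (max y K),
          ((#(({u ∈ Ioc 0 K | m ∣ u} : Finset ℕ) ×ˢ ({v ∈ Ioc 0 K | m ∣ v} : Finset ℕ)) : ℕ) : ℝ) := by
      exact_mod_cast h3
    refine h4.trans (sum_le_sum fun m hm => ?_)
    have hm0 : 0 < m := lt_of_le_of_lt (Nat.zero_le _) (mem_Ioc.1 hm).1
    have hm1 : (0 : ℝ) < m := by exact_mod_cast hm0
    rw [card_product, Nat.Ioc_filter_dvd_card_eq_div]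
    push_cast
    have h5 : ((K / m : ℕ) : ℝ) ≤ K / m := Nat.cast_div_le
    have h6 : (0 : ℝ) ≤ ((K / m : ℕ) : ℝ) := Nat.cast_nonneg _
    calc ((K / m : ℕ) : ℝ) * ((K / m : ℕ) : ℝ) ≤ (K / m) * (K / m) :=
          mul_le_mul h5 h5 h6 (by positivity)
      _ = (K : ℝ) ^ 2 * ((m : ℝ) ^ 2)⁻¹ := by field_simp
  refine h2.trans ?_
  rw [← mul_sum]
  have h3 := sum_Ioc_inv_sq_le_sub (α := ℝ) (k := y) (n := max y K) hy.ne' (le_max_left _ _)
  have h4 : (0 : ℝ) ≤ ((max y K : ℕ) : ℝ)⁻¹ := by positivity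
  rw [div_eq_mul_inv]
  apply mul_le_mul_of_nonneg_left _ (by positivity)
  linarith

lemma card_ne (M y n : ℕ) (hy : 0 < y) :
    ((#{x ∈ Ioc 0 n ×ˢ Ioc 0 n | Z M x.1 x.2 ≠ Y M y.factorial x.1 x.2} : ℕ) : ℝ) ≤
      (M : ℝ) ^ 2 * (((n : ℝ) + M) ^ 2 / y) := by
  classical
  have h1 : ({x ∈ Ioc 0 n ×ˢ Ioc 0 n | Z M x.1 x.2 ≠ Y M y.factorial x.1 x.2} :
      Finset (ℕ × ℕ)) ⊆ (Ioc 0 M ×ˢ Ioc 0 M).biUnion fun z =>
      {x ∈ Ioc 0 n ×ˢ Ioc 0 n | Bad y.factorial (x.1 + z.1) (x.2 + z.2)} := by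
    intro x hx
    rw [mem_filter] at hx
    obtain ⟨z, hz, hbad⟩ := exists_bad hx.2
    rw [mem_biUnion]
    exact ⟨z, hz, mem_filter.2 ⟨hx.1, hbad⟩⟩
  have h2 := (card_le_card h1).trans card_biUnion_le
  have h3 : ∀ z ∈ Ioc 0 M ×ˢ Ioc 0 M,
      ((#{x ∈ Ioc 0 n ×ˢ Ioc 0 n | Bad y.factorial (x.1 + z.1) (x.2 + z.2)} : ℕ) : ℝ) ≤
      ((n : ℝ) + M) ^ 2 / y := by
    intro z hz
    rw [mem_product, mem_Ioc, mem_Ioc] at hz
    have h4 := card_bad y (n + M) hy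
    push_cast at h4
    refine le_trans ?_ h4
    have h5 : #{x ∈ Ioc 0 n ×ˢ Ioc 0 n | Bad y.factorial (x.1 + z.1) (x.2 + z.2)} ≤
        #{x ∈ Ioc 0 (n + M) ×ˢ Ioc 0 (n + M) | Bad y.factorial x.1 x.2} := by
      apply card_le_card_of_injOn (fun x => (x.1 + z.1, x.2 + z.2))
      · intro x hx
        simp only [coe_filter, mem_product, Set.mem_ofPred_eq, mem_Ioc] at hx ⊢
        exact ⟨⟨⟨by omega, by omega⟩, by omega, by omega⟩, hx.2⟩
      · intro x _ x' _ h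
        simp only [Prod.mk.injEq] at h
        ext <;> omega
    exact_mod_cast h5
  have h4 : ((#{x ∈ Ioc 0 n ×ˢ Ioc 0 n | Z M x.1 x.2 ≠ Y M y.factorial x.1 x.2} : ℕ) : ℝ) ≤
      ∑ z ∈ Ioc 0 M ×ˢ Ioc 0 M,
        ((#{x ∈ Ioc 0 n ×ˢ Ioc 0 n | Bad y.factorial (x.1 + z.1) (x.2 + z.2)} : ℕ) : ℝ) := by
    exact_mod_cast h2
  refine h4.trans ((sum_le_sum h3).trans ?_)
  rw [sum_const, card_product, Nat.card_Ioc, Nat.sub_zero, nsmul_eq_mul]
  push_cast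
  exact le_of_eq (by ring)

lemma Y_period1 (M P a b : ℕ) : Y M P (a + P) b = Y M P a b := by
  unfold Y
  congr 1
  apply filter_congr
  intro x _
  unfold Nat.Coprime
  have h : ∀ u v : ℕ, Nat.gcd (Nat.gcd u v) P = Nat.gcd (Nat.gcd u P) v := fun u v => by
    rw [Nat.gcd_assoc, Nat.gcd_comm v P, ← Nat.gcd_assoc]
  rw [h, h, show a + P + x.1 = a + x.1 + P by ring, Nat.gcd_add_self_left]

lemma Y_period2 (M P a b : ℕ) : Y M P a (b + P) = Y M P a b := by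
  unfold Y
  congr 1
  apply filter_congr
  intro x _
  unfold Nat.Coprime
  have h : ∀ u v : ℕ, Nat.gcd (Nat.gcd u v) P = Nat.gcd u (Nat.gcd v P) := fun u v => by
    rw [Nat.gcd_assoc]
  rw [h, h, show b + P + x.2 = b + x.2 + P by ring, Nat.gcd_add_self_left]

lemma sum_Ioc_range (F : ℕ → ℝ) (n : ℕ) : ∑ a ∈ Ioc 0 n, F a = ∑ i ∈ range n, F (i + 1) := by
  induction n with
  | zero => simp
  | succ n ih => rw [sum_Ioc_succ_top (Nat.zero_le n), sum_range_succ, ih]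

/-- sums of periodic functions -/
lemma periodic_sum {P : ℕ} (hP : 0 < P) {F : ℕ → ℝ} (hF : ∀ a, F (a + P) = F a) {B : ℝ}
    (hB : ∀ a, |F a| ≤ B) (n : ℕ) :
    |∑ a ∈ Ioc 0 n, F a - (n : ℝ) / P * ∑ a ∈ Ioc 0 P, F a| ≤ 2 * P * B := by
  have hB0 : 0 ≤ B := (abs_nonneg _).trans (hB 0)
  have hP' : (0 : ℝ) < P := by exact_mod_cast hP
  have hbd : ∀ k : ℕ, |∑ a ∈ Ioc 0 k, F a| ≤ k * B := by
    intro k
    refine (abs_sum_le_sum_abs _ _).trans ((sum_le_sum fun a _ => hB a).trans ?_)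
    rw [sum_const, Nat.card_Ioc, Nat.sub_zero, nsmul_eq_mul]
  induction n using Nat.strong_induction_on with
  | _ n ih =>
    by_cases hn : n < P
    · have h1 := hbd n
      have h2 := hbd P
      have h3 : (n : ℝ) ≤ P := by exact_mod_cast hn.le
      have h4 : |(n : ℝ) / P * ∑ a ∈ Ioc 0 P, F a| ≤ n * B := by
        rw [abs_mul, abs_of_nonneg (by positivity)]
        calc (n : ℝ) / P * |∑ a ∈ Ioc 0 P, F a| ≤ (n : ℝ) / P * (P * B) := by gcongr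
          _ = n * B := by field_simp
      refine (abs_sub _ _).trans ?_
      nlinarith
    · push Not at hn
      obtain ⟨k, rfl⟩ := Nat.exists_eq_add_of_le hn
      have h1 := ih k (by omega)
      have h2 : ∑ a ∈ Ioc 0 (P + k), F a = ∑ a ∈ Ioc 0 P, F a + ∑ a ∈ Ioc 0 k, F a := by
        rw [sum_Ioc_range, sum_Ioc_range, sum_Ioc_range, sum_range_add]
        congr 1
        refine sum_congr rfl fun i _ => ?_
        rw [show P + i + 1 = i + 1 + P by ring, hF]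
      rw [h2]
      have h3 : ∑ a ∈ Ioc 0 P, F a + ∑ a ∈ Ioc 0 k, F a -
          (((P + k : ℕ) : ℝ)) / P * ∑ a ∈ Ioc 0 P, F a =
          ∑ a ∈ Ioc 0 k, F a - (k : ℝ) / P * ∑ a ∈ Ioc 0 P, F a := by
        push_cast
        field_simp
        ring
      rw [h3]
      exact h1

lemma periodic_avg {P : ℕ} (hP : 0 < P) {f : ℕ → ℕ → ℝ} (hf1 : ∀ a b, f (a + P) b = f a b)
    (hf2 : ∀ a b, f a (b + P) = f a b) {B : ℝ} (hB : ∀ a b, |f a b| ≤ B) (n : ℕ) (hn : 0 < n) :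
    |avg n f - avg P f| ≤ 4 * P * B / n := by
  have hP' : (0 : ℝ) < P := by exact_mod_cast hP
  have hn' : (0 : ℝ) < n := by exact_mod_cast hn
  have hB0 : 0 ≤ B := (abs_nonneg _).trans (hB 0 0)
  set S : ℕ → ℝ := fun a => ∑ b ∈ Ioc 0 P, f a b with hS
  have h1 : ∀ a, |∑ b ∈ Ioc 0 n, f a b - (n : ℝ) / P * S a| ≤ 2 * P * B := fun a =>
    periodic_sum hP (hf2 a) (hB a) n
  have hSB : ∀ a, |S a| ≤ P * B := by
    intro a
    refine (abs_sum_le_sum_abs _ _).trans ((sum_le_sum fun b _ => hB a b).trans ?_)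
    rw [sum_const, Nat.card_Ioc, Nat.sub_zero, nsmul_eq_mul]
  have h2 : |∑ a ∈ Ioc 0 n, S a - (n : ℝ) / P * ∑ a ∈ Ioc 0 P, S a| ≤ 2 * P * (P * B) :=
    periodic_sum hP (fun a => by simp only [hS, hf1]) hSB n
  have h3 : |∑ a ∈ Ioc 0 n, ∑ b ∈ Ioc 0 n, f a b - ((n : ℝ) / P) ^ 2 * ∑ a ∈ Ioc 0 P, S a| ≤
      4 * P * B * n := by
    have e1 : ∑ a ∈ Ioc 0 n, ∑ b ∈ Ioc 0 n, f a b - ((n : ℝ) / P) ^ 2 * ∑ a ∈ Ioc 0 P, S a =
        ∑ a ∈ Ioc 0 n, (∑ b ∈ Ioc 0 n, f a b - (n : ℝ) / P * S a) +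
        (n : ℝ) / P * (∑ a ∈ Ioc 0 n, S a - (n : ℝ) / P * ∑ a ∈ Ioc 0 P, S a) := by
      rw [sum_sub_distrib, ← mul_sum]
      ring
    rw [e1]
    refine (abs_add_le _ _).trans ?_
    have e2 : |∑ a ∈ Ioc 0 n, (∑ b ∈ Ioc 0 n, f a b - (n : ℝ) / P * S a)| ≤ n * (2 * P * B) := by
      refine (abs_sum_le_sum_abs _ _).trans ((sum_le_sum fun a _ => h1 a).trans ?_)
      rw [sum_const, Nat.card_Ioc, Nat.sub_zero, nsmul_eq_mul]
    have e3 : |(n : ℝ) / P * (∑ a ∈ Ioc 0 n, S a - (n : ℝ) / P * ∑ a ∈ Ioc 0 P, S a)| ≤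
        n * (2 * P * B) := by
      rw [abs_mul, abs_of_nonneg (by positivity)]
      calc (n : ℝ) / P * |∑ a ∈ Ioc 0 n, S a - (n : ℝ) / P * ∑ a ∈ Ioc 0 P, S a|
          ≤ (n : ℝ) / P * (2 * P * (P * B)) := by gcongr
        _ = n * (2 * P * B) := by field_simp
    linarith
  have h4 : avg n f - avg P f =
      (∑ a ∈ Ioc 0 n, ∑ b ∈ Ioc 0 n, f a b - ((n : ℝ) / P) ^ 2 * ∑ a ∈ Ioc 0 P, S a) /
        (n : ℝ) ^ 2 := by
    unfold avg
    field_simp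
    rfl
  rw [h4, abs_div, abs_of_pos (by positivity : (0 : ℝ) < (n : ℝ) ^ 2), div_le_div_iff₀
    (by positivity) hn']
  calc |∑ a ∈ Ioc 0 n, ∑ b ∈ Ioc 0 n, f a b - ((n : ℝ) / P) ^ 2 * ∑ a ∈ Ioc 0 P, S a| * n
      ≤ (4 * P * B * n) * n := by gcongr
    _ = 4 * P * B * (n : ℝ) ^ 2 := by ring

/-- comparison of `Z` with the truncated count -/
lemma avg_diff {M y n : ℕ} (hy : 0 < y) {φ : ℕ → ℝ} {B : ℝ}
    (hφ : ∀ r ≤ M ^ 2, |φ r| ≤ B) :
    |avg n (fun a b => φ (Z M a b)) - avg n (fun a b => φ (Y M y.factorial a b))| ≤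
      2 * B * ((M : ℝ) ^ 2 * (((n : ℝ) + M) ^ 2 / y)) / (n : ℝ) ^ 2 := by
  have hB0 : 0 ≤ B := (abs_nonneg _).trans (hφ 0 (Nat.zero_le _))
  unfold avg
  rw [← sub_div, abs_div, abs_of_nonneg (by positivity : (0 : ℝ) ≤ (n : ℝ) ^ 2)]
  apply div_le_div_of_nonneg_right _ (by positivity)
  rw [← sum_sub_distrib]
  have h1 : ∑ a ∈ Ioc 0 n, (∑ b ∈ Ioc 0 n, φ (Z M a b) - ∑ b ∈ Ioc 0 n, φ (Y M y.factorial a b)) =
      ∑ x ∈ Ioc 0 n ×ˢ Ioc 0 n, (φ (Z M x.1 x.2) - φ (Y M y.factorial x.1 x.2)) := by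
    rw [sum_product]
    refine sum_congr rfl fun a _ => ?_
    rw [sum_sub_distrib]
  rw [h1]
  refine (abs_sum_le_sum_abs _ _).trans ?_
  have h2 : ∀ x ∈ Ioc 0 n ×ˢ Ioc 0 n, |φ (Z M x.1 x.2) - φ (Y M y.factorial x.1 x.2)| ≤
      if Z M x.1 x.2 ≠ Y M y.factorial x.1 x.2 then 2 * B else 0 := by
    intro x _
    split_ifs with h
    · have h3 := hφ _ ((Z_le_Y M y.factorial x.1 x.2).trans (Y_le M y.factorial x.1 x.2))
      have h4 := hφ _ (Y_le M y.factorial x.1 x.2)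
      refine (abs_sub _ _).trans ?_
      linarith
    · push Not at h
      rw [h, sub_self, abs_zero]
  refine (sum_le_sum h2).trans ?_
  rw [← sum_filter, sum_const, nsmul_eq_mul, mul_comm]
  exact mul_le_mul_of_nonneg_left (card_ne M y n hy) (by positivity)

lemma exists_limit {x c : ℕ → ℝ} {K : ℝ}
    (h : ∀ y : ℕ, 0 < y → ∀ ε > 0, ∀ᶠ n in atTop, |x n - c y| ≤ K / y + ε) :
    ∃ l, Tendsto x atTop (𝓝 l) ∧ ∀ y : ℕ, 0 < y → |l - c y| ≤ K / y := by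
  have hcauchy : CauchySeq x := by
    rw [Metric.cauchySeq_iff']
    intro ε hε
    have h1 : ∀ᶠ y : ℕ in atTop, K / y < ε / 4 :=
      (tendsto_const_div_atTop_nhds_zero_nat K).eventually (gt_mem_nhds (by linarith))
    obtain ⟨y, hy1, hy2⟩ := (h1.and (eventually_gt_atTop 0)).exists
    obtain ⟨m, hm⟩ := eventually_atTop.1 (h y hy2 (ε / 8) (by linarith))
    refine ⟨m, fun n hn => ?_⟩
    have h2 := hm n hn
    have h3 := hm m le_rfl
    rw [Real.dist_eq]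
    have h4 : |x n - x m| ≤ |x n - c y| + |x m - c y| := by
      have := abs_sub (x n - c y) (x m - c y)
      rwa [sub_sub_sub_cancel_right] at this
    linarith
  obtain ⟨l, hl⟩ := cauchySeq_tendsto_of_complete hcauchy
  refine ⟨l, hl, fun y hy => ?_⟩
  apply le_of_forall_pos_le_add
  intro ε hε
  exact le_of_tendsto ((hl.sub_const (c y)).abs) (h y hy ε hε)

lemma exists_limit_avg (M : ℕ) {φ : ℕ → ℝ} {B : ℝ} (hφ : ∀ r ≤ M ^ 2, |φ r| ≤ B) :
    ∃ l, Tendsto (fun n => avg n (fun a b => φ (Z M a b))) atTop (𝓝 l) ∧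
      ∀ y : ℕ, 0 < y → |l - avg y.factorial (fun a b => φ (Y M y.factorial a b))| ≤
        2 * B * (M : ℝ) ^ 2 / y := by
  apply exists_limit
  intro y hy ε hε
  have hB0 : 0 ≤ B := (abs_nonneg _).trans (hφ 0 (Nat.zero_le _))
  have hy' : (0 : ℝ) < y := by exact_mod_cast hy
  have h1 : Tendsto (fun n : ℕ => 2 * B * ((M : ℝ) ^ 2 * (((n : ℝ) + M) ^ 2 / y)) / (n : ℝ) ^ 2 +
      4 * (y.factorial : ℝ) * B / n) atTop (𝓝 (2 * B * (M : ℝ) ^ 2 / y * (1 + 0) ^ 2 + 0)) := by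
    refine Tendsto.add ?_ (tendsto_const_div_atTop_nhds_zero_nat _)
    have h2 : Tendsto (fun n : ℕ => 2 * B * (M : ℝ) ^ 2 / y * (1 + (M : ℝ) / n) ^ 2) atTop
        (𝓝 (2 * B * (M : ℝ) ^ 2 / y * (1 + 0) ^ 2)) :=
      ((tendsto_const_nhds.add (tendsto_const_div_atTop_nhds_zero_nat _)).pow 2).const_mul _
    refine h2.congr' ?_
    filter_upwards [eventually_gt_atTop 0] with n hn
    have hn' : (0 : ℝ) < n := by exact_mod_cast hn
    field_simp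
  have h3 : 2 * B * (M : ℝ) ^ 2 / y * (1 + 0) ^ 2 + 0 < 2 * B * (M : ℝ) ^ 2 / y + ε := by
    linarith
  filter_upwards [h1.eventually (gt_mem_nhds h3), eventually_gt_atTop 0] with n hn hn0
  have h4 := avg_diff (n := n) hy hφ
  have h5 := periodic_avg (Nat.factorial_pos y)
    (f := fun a b => φ (Y M y.factorial a b)) (fun a b => by simp only [Y_period1])
    (fun a b => by simp only [Y_period2]) (B := B) (fun a b => hφ _ (Y_le _ _ _ _)) n hn0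
  have h6 : |avg n (fun a b => φ (Z M a b)) - avg y.factorial (fun a b => φ (Y M y.factorial a b))| ≤
      |avg n (fun a b => φ (Z M a b)) - avg n (fun a b => φ (Y M y.factorial a b))| +
      |avg n (fun a b => φ (Y M y.factorial a b)) -
        avg y.factorial (fun a b => φ (Y M y.factorial a b))| := abs_sub_le _ _ _
  linarith

/-- moments -/
lemma avg_moment (M n : ℕ) (φ : ℕ → ℝ) : avg n (fun a b => φ (Z M a b)) =
    ∑ r ∈ range (M ^ 2 + 1), φ r * ((count M r n : ℝ) / (n : ℝ) ^ 2) := by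
  unfold avg count
  have h0 : Icc 1 n = Ioc 0 n := by
    ext m
    simp only [mem_Icc, mem_Ioc]
    omega
  rw [h0]
  have h1 : ∑ a ∈ Ioc 0 n, ∑ b ∈ Ioc 0 n, φ (Z M a b) =
      ∑ r ∈ range (M ^ 2 + 1), φ r *
        ((#{x ∈ Ioc 0 n ×ˢ Ioc 0 n | Z M x.1 x.2 = r} : ℕ) : ℝ) := by
    rw [← sum_product' (f := fun a b => φ (Z M a b)),
      ← sum_fiberwise_of_maps_to (t := range (M ^ 2 + 1)) (g := fun x : ℕ × ℕ => Z M x.1 x.2)
      (fun x _ => mem_range.2 (Nat.lt_succ_of_le ((Z_le_Y M 1 x.1 x.2).trans (Y_le M 1 _ _))))]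
    refine sum_congr rfl fun r _ => ?_
    rw [mul_comm, ← nsmul_eq_mul, ← sum_const]
    refine sum_congr rfl fun x hx => ?_
    rw [(mem_filter.1 hx).2]
  rw [h1, sum_div]
  refine sum_congr rfl fun r _ => ?_
  rw [mul_div_assoc]

/-- **The variance of the coprime count in a random lattice square is `O(M²)`.**  For all `M ≥ 1`
the limit law `p_M` of `Z_M` exists, has total mass one, and its variance is at most `24 M²`. -/
theorem result : ∃ C : ℝ, 0 < C ∧ ∀ M : ℕ, 1 ≤ M → ∃ p : ℕ → ℝ, IsLimitLaw M p ∧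
    ∑ r ∈ range (M ^ 2 + 1), p r = 1 ∧ variance (M ^ 2) p ≤ C * (M : ℝ) ^ 2 := by
  refine ⟨24, by norm_num, fun M _ => ?_⟩
  -- the limit law
  have hp : ∀ r : ℕ, ∃ l, Tendsto (fun n : ℕ => (count M r n : ℝ) / (n : ℝ) ^ 2) atTop (𝓝 l) := by
    intro r
    by_cases hr : r ≤ M ^ 2
    · obtain ⟨l, hl, -⟩ := exists_limit_avg M (φ := fun s => if s = r then 1 else 0) (B := 1)
        (fun s _ => by split_ifs <;> simp)
      refine ⟨l, hl.congr fun n => ?_⟩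
      refine (avg_moment M n (fun s => if s = r then (1 : ℝ) else 0)).trans ?_
      rw [sum_eq_single r]
      · simp
      · intro s _ hs
        simp [hs]
      · intro h
        exact absurd (mem_range.2 (Nat.lt_succ_of_le hr)) h
    · refine ⟨0, tendsto_const_nhds.congr fun n => ?_⟩
      have : count M r n = 0 := by
        unfold count
        rw [card_eq_zero, filter_eq_empty_iff]
        intro x _ h
        apply hr
        rw [← h]
        exact (Z_le_Y M 1 x.1 x.2).trans (Y_le M 1 _ _)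
      rw [this]
      simp
  choose p hp using hp
  have hmom : ∀ φ : ℕ → ℝ, Tendsto (fun n => avg n (fun a b => φ (Z M a b))) atTop
      (𝓝 (∑ r ∈ range (M ^ 2 + 1), φ r * p r)) := by
    intro φ
    simp_rw [avg_moment]
    exact tendsto_finsetSum _ fun r _ => (hp r).const_mul _
  refine ⟨p, hp, ?_, ?_⟩
  · have h1 := hmom fun _ => 1
    simp only [one_mul] at h1
    refine tendsto_nhds_unique h1 (tendsto_const_nhds.congr' ?_)
    filter_upwards [eventually_gt_atTop 0] with n hn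
    have hn' : (n : ℝ) ≠ 0 := by exact_mod_cast hn.ne'
    unfold avg
    simp only [sum_const, Nat.card_Ioc, Nat.sub_zero, nsmul_eq_mul, mul_one]
    field_simp
  · have hb1 : ∀ r ≤ M ^ 2, |((r : ℕ) : ℝ)| ≤ (M : ℝ) ^ 2 := by
      intro r hr
      rw [abs_of_nonneg (Nat.cast_nonneg r)]
      exact_mod_cast hr
    have hb2 : ∀ r ≤ M ^ 2, |((r : ℕ) : ℝ) ^ 2| ≤ ((M : ℝ) ^ 2) ^ 2 := by
      intro r hr
      rw [abs_pow]
      exact pow_le_pow_left₀ (abs_nonneg _) (hb1 r hr) 2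
    obtain ⟨l1, hl1, hl1'⟩ := exists_limit_avg M (φ := fun r => (r : ℝ)) hb1
    obtain ⟨l2, hl2, hl2'⟩ := exists_limit_avg M (φ := fun r => (r : ℝ) ^ 2) hb2
    have e1 := tendsto_nhds_unique hl1 (hmom fun r => (r : ℝ))
    have e2 := tendsto_nhds_unique hl2 (hmom fun r => (r : ℝ) ^ 2)
    unfold variance
    rw [← e1, ← e2]
    have t : ∀ (l K : ℝ) (c : ℕ → ℝ), (∀ y : ℕ, 0 < y → |l - c y| ≤ K / y) →
        Tendsto c atTop (𝓝 l) := by
      intro l K c h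
      rw [tendsto_iff_norm_sub_tendsto_zero]
      refine squeeze_zero' (Eventually.of_forall fun _ => norm_nonneg _) ?_
        (tendsto_const_div_atTop_nhds_zero_nat K)
      filter_upwards [eventually_gt_atTop 0] with y hy
      rw [norm_sub_rev, Real.norm_eq_abs]
      exact h y hy
    have t1 := t _ _ _ hl1'
    have t2 := t _ _ _ hl2'
    refine le_of_tendsto (t2.sub (t1.pow 2)) (Eventually.of_forall fun y => ?_)
    exact var_Y (Nat.factorial_pos y)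

end Pool.Agent.Results.MP_143e3a_nt.VarianceBound
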